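import Mathlib
import Pool.Agent.Helper540.HC.CubeMain

set_option autoImplicit false

namespace Pool.Agent.Results.MP_b4c0b6_an.CubeBelowTwo

/-- The function on the cube `{-1,1}^n` (the vertex `x : Fin n → Bool` has the coordinates `1` for
`true` and `-1` for `false`) with Walsh coefficients `c S`. -/
noncomputable def walshSum {n : ℕ} (c : Finset (Fin n) → ℝ) (x : Fin n → Bool) : ℝ :=
  ∑ S : Finset (Fin n), c S * ∏ i ∈ S, (if x i then (1 : ℝ) else -1)

/-- The norm of `L_p` for the uniform probability measure of the cube. -/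
noncomputable def cubeNorm {n : ℕ} (p : ℝ) (f : (Fin n → Bool) → ℝ) : ℝ :=
  ((∑ x : Fin n → Bool, |f x| ^ p) / 2 ^ n) ^ (1 / p)

/-- Q1 is false, for every `p` strictly between `1` and `2`. The Laplacian multiplies the Walsh
coefficient of `S` by the cardinality of `S`. -/
theorem result :
    (∀ p : ℝ, 1 < p → p < 2 → ∀ C : ℝ, ∃ d n : ℕ, 1 ≤ d ∧ 1 ≤ n ∧
      ∃ c : Finset (Fin n) → ℝ, (∀ S, d < S.card → c S = 0) ∧
        C * d * cubeNorm p (walshSum c) <
          cubeNorm p (walshSum (fun S => (S.card : ℝ) * c S))) ∧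
    ¬ (∀ p : ℝ, 1 < p → ∃ C : ℝ, 0 < C ∧ ∀ d n : ℕ, 1 ≤ d → 1 ≤ n →
      ∀ c : Finset (Fin n) → ℝ, (∀ S, d < S.card → c S = 0) →
        cubeNorm p (walshSum (fun S => (S.card : ℝ) * c S)) ≤
          C * d * cubeNorm p (walshSum c)) := by
  have h : ∀ p : ℝ, 1 < p → p < 2 → ∀ C : ℝ, ∃ d n : ℕ, 1 ≤ d ∧ 1 ≤ n ∧
      ∃ c : Finset (Fin n) → ℝ, (∀ S, d < S.card → c S = 0) ∧
        C * d * cubeNorm p (walshSum c) <
          cubeNorm p (walshSum (fun S => (S.card : ℝ) * c S)) := by
    intro p hp1 hp2 C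
    obtain ⟨n, d, hn, hd, c, hc, hlt⟩ := HC.cube_main p hp1 hp2 (max C 1) (by positivity)
    refine ⟨d, n, hd, hn, c, hc, ?_⟩
    have hp0 : 0 < p := by linarith
    have hS : 0 ≤ ∑ x : Fin n → Bool, |walshSum c x| ^ p :=
      Finset.sum_nonneg (fun x _ => by positivity)
    have hN : 0 ≤ cubeNorm p (walshSum c) := by
      unfold cubeNorm; positivity
    have hlt' : (max C 1 * (d : ℝ)) ^ p * ∑ x : Fin n → Bool, |walshSum c x| ^ p <
        ∑ x : Fin n → Bool, |walshSum (fun S => (S.card : ℝ) * c S) x| ^ p := by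
      have e : ∀ x, walshSum (fun S => (S.card : ℝ) * c S) x =
        ∑ S : Finset (Fin n), (S.card : ℝ) * c S *
          ∏ i ∈ S, (if x i then (1 : ℝ) else -1) := fun x => rfl
      simp only [e]
      exact hlt
    calc C * d * cubeNorm p (walshSum c) ≤ max C 1 * d * cubeNorm p (walshSum c) := by
          gcongr
          exact le_max_left _ _
      _ = (((max C 1 * (d : ℝ)) ^ p * ∑ x : Fin n → Bool, |walshSum c x| ^ p) / 2 ^ n)
            ^ (1 / p) := by
          unfold cubeNorm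
          rw [mul_div_assoc, Real.mul_rpow (by positivity) (by positivity),
            ← Real.rpow_mul (by positivity), mul_one_div_cancel hp0.ne', Real.rpow_one]
      _ < cubeNorm p (walshSum (fun S => (S.card : ℝ) * c S)) := by
          unfold cubeNorm
          apply Real.rpow_lt_rpow (by positivity) _ (by positivity)
          gcongr
  refine ⟨h, fun hall => ?_⟩
  obtain ⟨C, -, hC⟩ := hall (3 / 2) (by norm_num)
  obtain ⟨d, n, hd, hn, c, hc, hlt⟩ := h (3 / 2) (by norm_num) (by norm_num) C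
  exact absurd (hC d n hd hn c hc) (not_le.2 hlt)

end Pool.Agent.Results.MP_b4c0b6_an.CubeBelowTwo
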