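import Mathlib
import Pool.Agent.Helper540.HS.Main

set_option autoImplicit false

namespace Pool.Agent.Results.MP_b4c0b6_an.GaussianBelowTwo

open MeasureTheory ProbabilityTheory
open scoped ENNReal NNReal

/-- The standard Gaussian probability measure `gamma_n` on `ℝ^n`. -/
noncomputable def gaussian (n : ℕ) : Measure (Fin n → ℝ) :=
  Measure.pi (fun _ => gaussianReal 0 1)

/-- The Ornstein-Uhlenbeck operator `N f = Delta f - x . grad f` on real polynomials in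
`x_1, ..., x_n`. -/
noncomputable def ornsteinUhlenbeck {n : ℕ} (f : MvPolynomial (Fin n) ℝ) :
    MvPolynomial (Fin n) ℝ :=
  ∑ i, (MvPolynomial.pderiv i (MvPolynomial.pderiv i f) -
    MvPolynomial.X i * MvPolynomial.pderiv i f)

/-- The norm of `L_p(gamma_n)`. -/
noncomputable def gaussNorm {n : ℕ} (p : ℝ) (f : MvPolynomial (Fin n) ℝ) : ℝ≥0∞ :=
  eLpNorm (fun x : Fin n → ℝ => MvPolynomial.eval x f) (ENNReal.ofReal p) (gaussian n)

/-- Q2 is false, for every `p` strictly between `1` and `2`: there is no dimension free bound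
`‖N f‖_p ≤ c d ‖f‖_p` for real polynomials of degree at most `d` on Gauss space. -/
theorem result :
    (∀ p : ℝ, 1 < p → p < 2 → ∀ c : ℝ≥0, ∃ d n : ℕ, 1 ≤ d ∧ 1 ≤ n ∧
      ∃ f : MvPolynomial (Fin n) ℝ, f.totalDegree ≤ d ∧
        (c : ℝ≥0∞) * d * gaussNorm p f < gaussNorm p (ornsteinUhlenbeck f)) ∧
    ¬ (∀ p : ℝ, 1 < p → ∃ c : ℝ≥0, 0 < c ∧ ∀ d n : ℕ, 1 ≤ d → 1 ≤ n →
      ∀ f : MvPolynomial (Fin n) ℝ, f.totalDegree ≤ d →
        gaussNorm p (ornsteinUhlenbeck f) ≤ (c : ℝ≥0∞) * d * gaussNorm p f) := by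
  have h : ∀ p : ℝ, 1 < p → p < 2 → ∀ c : ℝ≥0, ∃ d n : ℕ, 1 ≤ d ∧ 1 ≤ n ∧
      ∃ f : MvPolynomial (Fin n) ℝ, f.totalDegree ≤ d ∧
        (c : ℝ≥0∞) * d * gaussNorm p f < gaussNorm p (ornsteinUhlenbeck f) := HS.main
  refine ⟨h, fun hall => ?_⟩
  obtain ⟨c, -, hc⟩ := hall (3 / 2) (by norm_num)
  obtain ⟨d, n, hd, hn, f, hf, hlt⟩ := h (3 / 2) (by norm_num) (by norm_num) c
  exact absurd (hc d n hd hn f hf) (not_le.2 hlt)

end Pool.Agent.Results.MP_b4c0b6_an.GaussianBelowTwo
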