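import Pool.Agent.Helper228.GH.Main

/-!
# Reverse heat smoothing in Gauss space for all real `p ≥ 2`

For every real `p ≥ 2`, every `n`, every `d ≥ 1` and every real polynomial `f` on `ℝⁿ` of total
degree at most `d` we show `‖N f‖_{L_p(γ_n)} ≤ 2 e d ‖f‖_{L_p(γ_n)}`, where
`N f = Δ f - x · ∇ f` is the Ornstein–Uhlenbeck operator and `γ_n` the standard Gaussian measure.
-/

open MeasureTheory ProbabilityTheory MvPolynomial
open scoped ENNReal

namespace Pool.Agent.Results.MP_b4c0b6_an.GaussianPGeTwo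

/-- The standard Gaussian measure on `ℝⁿ`: the product of `n` copies of the real standard normal
distribution. -/
noncomputable def gauss (n : ℕ) : Measure (Fin n → ℝ) := Measure.pi fun _ => gaussianReal 0 1

/-- The Ornstein–Uhlenbeck operator `N f = Δ f - x · ∇ f` on real polynomials in `x_1, …, x_n`. -/
noncomputable def N {n : ℕ} (f : MvPolynomial (Fin n) ℝ) : MvPolynomial (Fin n) ℝ :=
  ∑ j, pderiv j (pderiv j f) - ∑ j, X j * pderiv j f

/-- For all real `p ≥ 2`, all `n`, all `d ≥ 1` and all real polynomials `f` on `ℝⁿ` of total degree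
at most `d`: `f` and `N f` lie in `L_p(γ_n)` and `‖N f‖_p ≤ 2 e d ‖f‖_p`. -/
theorem result (p : ℝ) (hp : 2 ≤ p) (n d : ℕ) (hd : 1 ≤ d) (f : MvPolynomial (Fin n) ℝ)
    (hf : f.totalDegree ≤ d) :
    MemLp (fun x => eval x f) (ENNReal.ofReal p) (gauss n) ∧
    MemLp (fun x => eval x (N f)) (ENNReal.ofReal p) (gauss n) ∧
    eLpNorm (fun x => eval x (N f)) (ENNReal.ofReal p) (gauss n)
      ≤ ENNReal.ofReal (2 * Real.exp 1 * d) *
        eLpNorm (fun x => eval x f) (ENNReal.ofReal p) (gauss n) := by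
  have hp0 : 0 < p := by linarith
  have hmem : ∀ h : MvPolynomial (Fin n) ℝ,
      MemLp (fun x => eval x h) (ENNReal.ofReal p) (gauss n) := by
    intro h
    rw [← integrable_norm_rpow_iff (MvPolynomial.continuous_eval h).aestronglyMeasurable
      (by simpa using hp0) ENNReal.ofReal_ne_top, ENNReal.toReal_ofReal hp0.le]
    exact Helper228.GH.integrable_eval_rpow h p hp
  refine ⟨hmem f, hmem (N f), ?_⟩
  rw [(hmem f).eLpNorm_eq_integral_rpow_norm (by simpa using hp0) ENNReal.ofReal_ne_top,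
    (hmem (N f)).eLpNorm_eq_integral_rpow_norm (by simpa using hp0) ENNReal.ofReal_ne_top,
    ENNReal.toReal_ofReal hp0.le, ← ENNReal.ofReal_mul (by positivity)]
  refine ENNReal.ofReal_le_ofReal ?_
  have h := Helper228.GH.main_ineq f d hd hf p hp
  rw [one_div] at h
  exact h

end Pool.Agent.Results.MP_b4c0b6_an.GaussianPGeTwo
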